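import Mathlib

/-!
# Exponential IP sets of type I are not partition regular
-/

namespace Pool.Agent.Results.MP_952e1b_co.TypeIFails

/-- `FE^I_n(X)` for the set `X = {x 0 < x 1 < ...}`. -/
def FEI (x : ℕ → ℕ) : ℕ → Set ℕ
  | 0 => {x 0}
  | n + 1 => {z | ∃ y ∈ FEI x n, z = y ^ x (n + 1)} ∪ FEI x n ∪ {x (n + 1)}

/-- `C` is an exponential IP set of type I: for some infinite set `X = {x 0 < x 1 < ...}` the
set `FE^I(X)`, the union of the sets `FE^I_n(X)`, is contained in `C`. -/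
def ExpIPI (C : Set ℕ) : Prop :=
  ∃ x : ℕ → ℕ, StrictMono x ∧ (⋃ n, FEI x n) ⊆ C

/-- towers of twos -/
def T : ℕ → ℕ
  | 0 => 1
  | k + 1 => 2 ^ T k

lemma lt_T : ∀ k, k < T k
  | 0 => by decide
  | k + 1 => lt_of_le_of_lt (lt_T k) Nat.lt_two_pow_self

lemma T_mono : StrictMono T := strictMono_nat_of_lt_succ fun _ => Nat.lt_two_pow_self

lemma exists_T (n : ℕ) : ∃ k, n ≤ T k := ⟨n, (lt_T n).le⟩

open Classical in
/-- the iterated logarithm -/
noncomputable def lst (n : ℕ) : ℕ := Nat.find (exists_T n)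

lemma le_T_lst (n : ℕ) : n ≤ T (lst n) := by
  classical
  exact Nat.find_spec (exists_T n)

lemma lst_le {n k : ℕ} (h : n ≤ T k) : lst n ≤ k := by
  classical
  exact Nat.find_min' (exists_T n) h

lemma lt_of_lst {n k : ℕ} (h : k < lst n) : T k < n := by
  by_contra hcon
  exact absurd (lst_le (not_lt.1 hcon)) (not_le.2 h)

lemma lst_gt {n k : ℕ} (h : T k < n) : k < lst n := by
  by_contra hcon
  have h1 := T_mono.monotone (not_lt.1 hcon)
  have h2 := le_T_lst n
  omega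

lemma sq_le_two_pow {n : ℕ} (h : 4 ≤ n) : n * n ≤ 2 ^ n := by
  induction n, h using Nat.le_induction with
  | base => norm_num
  | succ n hn ih =>
    rw [pow_succ]
    nlinarith

lemma lst_pow {a b : ℕ} (ha : 2 ≤ a) (hab : a < b) :
    lst (a ^ b) = lst b + 1 ∨ lst (a ^ b) = lst b + 2 := by
  have hk : 1 < lst b := lst_gt (show T 1 < b by
    have : T 1 = 2 := rfl
    omega)
  obtain ⟨k, hk'⟩ : ∃ k, lst b = k + 2 := ⟨lst b - 2, by omega⟩
  have h1 : T (k + 1) < b := lt_of_lst (by omega)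
  have h2 : b ≤ T (k + 2) := hk' ▸ le_T_lst b
  have hT4 : 4 ≤ T (k + 2) := by
    have : T 2 ≤ T (k + 2) := T_mono.monotone (by omega)
    have h4 : T 2 = 4 := rfl
    omega
  have hlow : lst b < lst (a ^ b) := by
    rw [hk']
    refine lst_gt ?_
    calc T (k + 2) = 2 ^ T (k + 1) := rfl
      _ < 2 ^ b := Nat.pow_lt_pow_right (by norm_num) h1
      _ ≤ a ^ b := Nat.pow_le_pow_left ha b
  have hup : lst (a ^ b) ≤ lst b + 2 := by
    rw [hk']
    refine lst_le ?_
    calc a ^ b ≤ (T (k + 2)) ^ b := Nat.pow_le_pow_left (by omega) b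
      _ = (2 ^ T (k + 1)) ^ b := rfl
      _ = 2 ^ (T (k + 1) * b) := (pow_mul _ _ _).symm
      _ ≤ 2 ^ (2 ^ T (k + 2)) := by
        refine Nat.pow_le_pow_right (by norm_num) ?_
        calc T (k + 1) * b ≤ T (k + 2) * T (k + 2) :=
              Nat.mul_le_mul (T_mono.monotone (by omega)) h2
          _ ≤ 2 ^ T (k + 2) := sq_le_two_pow hT4
      _ = T (k + 2 + 2) := rfl
  omega

/-- For every `r ≥ 3` there is a partition of `ℕ` into `r` nonempty cells none of which is an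
exponential IP set of type I. -/
theorem result : ∀ r : ℕ, 3 ≤ r → ∃ c : ℕ → Fin r, Function.Surjective c ∧
    ∀ i, ¬ ExpIPI {n | c n = i} := by
  intro r hr
  refine ⟨fun n => if h : n < r then ⟨n, h⟩ else ⟨lst n % 3,
    lt_of_lt_of_le (Nat.mod_lt _ (by norm_num)) hr⟩, fun i => ⟨i, ?_⟩, ?_⟩
  · simp
  · rintro i ⟨x, hx, hsub⟩
    have h1 : r ≤ x r := hx.id_le r
    have h2 : x r < x (r + 1) := hx (Nat.lt_succ_self r)
    have h3 : ∀ n, x n ∈ FEI x n := by
      intro n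
      cases n with
      | zero => exact rfl
      | succ n => exact Or.inr rfl
    have h4 : x (r + 1) < x r ^ x (r + 1) :=
      Nat.lt_pow_self (by omega)
    have e1 : (if h : x (r + 1) < r then (⟨x (r + 1), h⟩ : Fin r) else ⟨lst (x (r + 1)) % 3,
        lt_of_lt_of_le (Nat.mod_lt _ (by norm_num)) hr⟩) = i :=
      hsub (Set.mem_iUnion.2 ⟨r + 1, h3 (r + 1)⟩)
    have e2 : (if h : x r ^ x (r + 1) < r then (⟨x r ^ x (r + 1), h⟩ : Fin r) else
        ⟨lst (x r ^ x (r + 1)) % 3, lt_of_lt_of_le (Nat.mod_lt _ (by norm_num)) hr⟩) = i :=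
      hsub (Set.mem_iUnion.2 ⟨r + 1, Or.inl (Or.inl ⟨x r, h3 r, rfl⟩)⟩)
    rw [dif_neg (by omega)] at e1 e2
    have e3 := congrArg Fin.val (e1.trans e2.symm)
    simp only at e3
    rcases lst_pow (a := x r) (b := x (r + 1)) (by omega) h2 with h | h <;> omega

end Pool.Agent.Results.MP_952e1b_co.TypeIFails
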